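import Pool.Agent.Y430.PN.C

/-!
# MP_46efc5_an: the product ideal `(𝔏₁ ∘ 𝔏_∞)** ∘ 𝔏₂` is `r`-normed exactly for `r ≤ 2/3`

The quasi-norm `𝐀₀ ∘ 𝐋₂` is an ideal `2/3`-norm, and for `r > 0` it is equivalent to an ideal `r`-norm
if and only if `r ≤ 2/3`; in particular (`r = 1`) the product ideal is not normed.

Proof. The general theory gives only the exponent `1/2` (the product of two normed ideals). For the
second factor `𝔏₂` write `T_i = B_i S_i` with `S_i` into a Hilbert space `H_i`, `‖S_i‖ ≤ t_i^(1/3)` and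
`𝐀₀(B_i) ≤ t_i^(2/3)`; then `T₁ + T₂` factors through the Hilbert sum, and its quasi-norm is at most
`(t₁^(2/3) + t₂^(2/3))^(3/2)`. Conversely the diagonal operator `(1/n) ∑ e_i' ⊗ e_i : ℓ_∞ → ℓ₁` has
quasi-norm at least `√n / 8` (starting library `Helper362`), and every ideal `r`-norm of it is at most
`n^(1/r - 1)` times the one of the identity of the scalars.
-/

set_option autoImplicit false

open scoped ENNReal

namespace Pool.Agent.Results.MP_46efc5_an.ExactExponent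

open Pool.Agent.Helper362.ProdId Pool.Agent.Y430.PN

/-- For real and for complex scalars: the quasi-norm `𝐀₀ ∘ 𝐋₂` of the product ideal
`(𝔏₁ ∘ 𝔏_∞)** ∘ 𝔏₂` is an ideal `2/3`-norm; for `r > 0` it is equivalent to an ideal `r`-norm if and
only if `r ≤ 2/3`; for `r > 2/3` no ideal `r`-norm dominates it on the component `(ℓ_∞, ℓ₁)`; in
particular it is not equivalent to an ideal norm. -/
theorem result (𝕜 : Type) [RCLike 𝕜] :
    IsIdealRNorm (2 / 3) (prod (A0 𝕜) (L2 𝕜)) ∧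
    (∀ r : ℝ, 0 < r → (IsRNormed r (prod (A0 𝕜) (L2 𝕜)) ↔ r ≤ 2 / 3)) ∧
    (∀ r : ℝ, 2 / 3 < r → ∀ N : IdealFn 𝕜, IsIdealRNorm r N →
      N.val (ContinuousLinearMap.id 𝕜 𝕜) < ⊤ → ∀ C : ℝ≥0∞, C ≠ ⊤ →
      ∃ T : lp (fun _ : ℕ => 𝕜) ∞ →L[𝕜] lp (fun _ : ℕ => 𝕜) 1,
        C * N.val T < (prod (A0 𝕜) (L2 𝕜)).val T) ∧
    ¬ IsNormed (prod (A0 𝕜) (L2 𝕜)) := by
  refine ⟨prod_L2 A0_normed, fun r hr => rnormed_iff hr, ?_, ?_⟩
  · intro r hr N hN hid C hC
    by_contra hcon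
    push Not at hcon
    exact not_dom hr hN hid C hC hcon
  · intro h
    have h1 := (rnormed_iff (𝕜 := 𝕜) one_pos).1 ((rnormed_one _).2 h)
    norm_num at h1

end Pool.Agent.Results.MP_46efc5_an.ExactExponent
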